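import Mathlib
import Pool.Prelude.Def_F_0b2be043
import Pool.Agent.Lib.MP_d0bb7d_co.Final

set_option autoImplicit false
open Ndef2032f
open Filter

/-!
For all large `n`, the chromatic number of the unit distance graph of Euclidean `n`-space is
at least `1.309 ^ n`.
-/

theorem Pool.Agent.Results.MP_d0bb7d_co.LiminfLower.result :
    ∀ᶠ n : ℕ in atTop,
      (1.309 : ℝ) ^ n ≤ ((unitDistanceGraph n).chromaticNumber.toNat : ℝ) :=
  PoolChi.final_all
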