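import Pool.Prelude.Def_F_0b2be043
import Pool.Agent.Lib.MP_d0bb7d_co.UpFinal

/-!
# MP_d0bb7d_co: the chromatic number of `ℝ^n` is at most `C n^4 (3√3/2)^n`

`3√3/2 = 2.598...` improves the base `3` of Larman and Rogers (1972).
-/

set_option autoImplicit false

namespace Pool.Agent.Results.MP_d0bb7d_co.UpperBound

open Pool.Agent.Lib.MP_d0bb7d_co.Up Filter Ndef2032f

theorem result :
    (∃ C : ℝ, ∀ n : ℕ, 1 ≤ n → ∃ m : ℕ, (m : ℝ) ≤ C * n ^ 4 * (3 * √3 / 2) ^ n ∧
      (unitDistanceGraph n).Colorable m) ∧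
    limsup (fun n : ℕ => ((unitDistanceGraph n).chromaticNumber.toNat : ℝ) ^ (1 / (n : ℝ))) atTop
      ≤ 3 * √3 / 2 := by
  have hcol : ∀ (n m : ℕ), (∃ c : EuclideanSpace ℝ (Fin n) → Fin m,
      ∀ x y, dist x y = 1 → c x ≠ c y) → (unitDistanceGraph n).Colorable m := by
    rintro n m ⟨c, hc⟩
    exact ⟨SimpleGraph.Coloring.mk c (fun {x y} h => hc x y h)⟩
  refine ⟨?_, ?_⟩
  · obtain ⟨C, hC⟩ := poly_colouring
    refine ⟨C, fun n hn => ?_⟩
    obtain ⟨j, hj, hc⟩ := hC n hn
    exact ⟨j, hj, hcol n j hc⟩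
  · apply le_of_forall_pos_le_add
    intro ε hε
    apply limsup_le_of_le
    · exact isCoboundedUnder_le_of_le atTop (x := 0) (fun n => by positivity)
    · filter_upwards [eventually_colouring hε, eventually_ge_atTop 1] with n hn hn1
      obtain ⟨j, hj, hc⟩ := hn
      have h1 := (hcol n j hc).chromaticNumber_le
      have h2 : (unitDistanceGraph n).chromaticNumber.toNat ≤ j := by
        have := ENat.toNat_le_toNat h1 (ENat.natCast_ne_top j)
        simpa using this
      have h3 : ((unitDistanceGraph n).chromaticNumber.toNat : ℝ) ≤ (3 * √3 / 2 + ε) ^ n := by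
        refine le_trans ?_ hj
        exact_mod_cast h2
      have hn0 : (0 : ℝ) < n := by exact_mod_cast hn1
      have hb : (0 : ℝ) ≤ 3 * √3 / 2 + ε := by positivity
      calc ((unitDistanceGraph n).chromaticNumber.toNat : ℝ) ^ (1 / (n : ℝ))
          ≤ ((3 * √3 / 2 + ε) ^ n) ^ (1 / (n : ℝ)) := by
            apply Real.rpow_le_rpow (by positivity) h3 (by positivity)
        _ = 3 * √3 / 2 + ε := by
            rw [← Real.rpow_natCast, ← Real.rpow_mul hb, mul_one_div, div_self hn0.ne',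
              Real.rpow_one]

end Pool.Agent.Results.MP_d0bb7d_co.UpperBound
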